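import Mathlib
import Pool.Agent.H46.LocDefs

set_option autoImplicit false

namespace Pool.Agent.Results.MP_840660_pr.Disproof

open Filter Topology Finset Pool.Agent.H46.Loc

lemma hada (b1 b2 b3 b4 : ℝ) (h1 : 0 ≤ b1) (h2 : 0 ≤ b2) (h3 : 0 ≤ b3) (h4 : 0 ≤ b4) :
    max (b1 - b2 - b3 - b4) 0 ^ 2 + max (b2 - b1 - b3 - b4) 0 ^ 2 + max (b3 - b1 - b2 - b4) 0 ^ 2 +
      max (b4 - b1 - b2 - b3) 0 ^ 2 ≤ (b1 + b3 - b2 - b4) ^ 2 := by
  rcases le_total (b1 - b2 - b3 - b4) 0 with a | a <;>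
  rcases le_total (b2 - b1 - b3 - b4) 0 with b | b <;>
  rcases le_total (b3 - b1 - b2 - b4) 0 with c | c <;>
  rcases le_total (b4 - b1 - b2 - b3) 0 with d | d <;>
  simp only [a, b, c, d, max_eq_right, max_eq_left] <;> nlinarith

lemma pos_part (a c : ℝ) (ha : 0 ≤ a) : a * c ≤ a ^ 2 + max c 0 ^ 2 / 4 := by
  have : a * c ≤ a * max c 0 := by gcongr; exact le_max_left _ _
  nlinarith [sq_nonneg (a - max c 0 / 2)]

lemma pm (c : ℝ) : max c 0 ^ 2 + max (-c) 0 ^ 2 = c ^ 2 := by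
  rcases le_total c 0 with h | h
  · rw [max_eq_right h, max_eq_left (by linarith)]; ring
  · rw [max_eq_left h, max_eq_right (by linarith)]; ring

lemma nine (b1 b2 b3 b4 o c1 c2 c3 c4 e12 e23 e34 e41 S : ℝ) (h1 : 0 ≤ b1) (h2 : 0 ≤ b2)
    (h3 : 0 ≤ b3) (h4 : 0 ≤ b4) (g0 : 0 ≤ o) (g1 : 0 ≤ c1) (g2 : 0 ≤ c2) (g3 : 0 ≤ c3)
    (g4 : 0 ≤ c4) (g5 : 0 ≤ e12) (g6 : 0 ≤ e23) (g7 : 0 ≤ e34) (g8 : 0 ≤ e41)
    (hS : o + c1 + c2 + c3 + c4 + e12 + e23 + e34 + e41 ≤ S) :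
    (b1 * (2 * (c1 + o + e12 + e41) - S) - b1 ^ 2) + (b2 * (2 * (e12 + e23 + c2 + o) - S) - b2 ^ 2)
      + (b3 * (2 * (o + c3 + e23 + e34) - S) - b3 ^ 2)
      + (b4 * (2 * (e41 + e34 + o + c4) - S) - b4 ^ 2) ≤
      o ^ 2 + c1 ^ 2 + c2 ^ 2 + c3 ^ 2 + c4 ^ 2 + e12 ^ 2 + e23 ^ 2 + e34 ^ 2 + e41 ^ 2 := by
  have a0 := mul_le_mul_of_nonneg_left hS (show 0 ≤ b1 + b2 + b3 + b4 by positivity)
  have a1 := hada b1 b2 b3 b4 h1 h2 h3 h4
  have p0 : o * (b1 + b2 + b3 + b4) ≤ o ^ 2 + (b1 + b2 + b3 + b4) ^ 2 / 4 := by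
    nlinarith [sq_nonneg (o - (b1 + b2 + b3 + b4) / 2)]
  have p1 := pos_part c1 (b1 - b2 - b3 - b4) g1
  have p2 := pos_part c2 (b2 - b1 - b3 - b4) g2
  have p3 := pos_part c3 (b3 - b1 - b2 - b4) g3
  have p4 := pos_part c4 (b4 - b1 - b2 - b3) g4
  have p5 := pos_part e12 (b1 + b2 - b3 - b4) g5
  have p6 := pos_part e34 (-(b1 + b2 - b3 - b4)) g7
  have p7 := pos_part e23 (b2 + b3 - b1 - b4) g6
  have p8 := pos_part e41 (-(b2 + b3 - b1 - b4)) g8
  have q1 := pm (b1 + b2 - b3 - b4)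
  have q2 := pm (b2 + b3 - b1 - b4)
  nlinarith

lemma adj_iff (x y : ℤ × ℤ) : adj x y ↔ x = (y.1 + 1, y.2) ∨ x = (y.1 - 1, y.2) ∨
    x = (y.1, y.2 + 1) ∨ x = (y.1, y.2 - 1) := by
  obtain ⟨a, b⟩ := x
  obtain ⟨c, d⟩ := y
  simp only [adj, Prod.mk.injEq]
  constructor
  · intro h
    have h1 : a - c ≤ 1 := by nlinarith [sq_nonneg (b - d)]
    have h2 : -1 ≤ a - c := by nlinarith [sq_nonneg (b - d)]
    have h3 : b - d ≤ 1 := by nlinarith [sq_nonneg (a - c)]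
    have h4 : -1 ≤ b - d := by nlinarith [sq_nonneg (a - c)]
    obtain ⟨u, rfl⟩ : ∃ u, a = c + u := ⟨a - c, by ring⟩
    obtain ⟨v, rfl⟩ : ∃ v, b = d + v := ⟨b - d, by ring⟩
    simp only [add_sub_cancel_left] at *
    interval_cases u <;> interval_cases v <;> simp_all <;> omega
  · rintro (⟨rfl, rfl⟩ | ⟨rfl, rfl⟩ | ⟨rfl, rfl⟩ | ⟨rfl, rfl⟩) <;> ring

def nb (g : ℤ × ℤ → ℝ) (y : ℤ × ℤ) : ℝ :=
  g (y.1 + 1, y.2) + g (y.1 - 1, y.2) + g (y.1, y.2 + 1) + g (y.1, y.2 - 1)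

lemma core (g : ℤ × ℤ → ℝ) (hg : ∀ x, 0 ≤ g x) (E O : Finset (ℤ × ℤ))
    (hE : ∀ x, (x.1 + x.2) % 2 = 0 → x ∉ E → g x = 0) (hO : ∀ y ∈ O, (y.1 + y.2) % 2 = 1) :
    ∑ y ∈ O, (g y * (2 * nb g y - ∑ x ∈ E, g x) - g y ^ 2) ≤ ∑ x ∈ E, g x ^ 2 := by
  classical
  have sub : ∀ (φ : ℝ → ℝ), φ 0 = 0 → (∀ t, 0 ≤ t → 0 ≤ φ t) → ∀ U : Finset (ℤ × ℤ),
      (∀ x ∈ U, (x.1 + x.2) % 2 = 0) → ∑ x ∈ U, φ (g x) ≤ ∑ x ∈ E, φ (g x) := by
    intro φ h0 h1 U hU
    rw [← sum_filter_add_sum_filter_not U (· ∈ E), sum_eq_zero (s := U.filter (¬ · ∈ E))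
      (fun x hx => by rw [hE x (hU x (mem_filter.mp hx).1) (mem_filter.mp hx).2, h0]), add_zero]
    exact sum_le_sum_of_subset_of_nonneg (fun x hx => (mem_filter.mp hx).2)
      fun x _ _ => h1 _ (hg x)
  set S := ∑ x ∈ E, g x with hS
  set Y := O.filter fun y => S < 2 * nb g y with hY
  have r1 : ∑ y ∈ O, (g y * (2 * nb g y - S) - g y ^ 2) ≤
      ∑ y ∈ Y, (g y * (2 * nb g y - S) - g y ^ 2) := by
    rw [← sum_filter_add_sum_filter_not O fun y => S < 2 * nb g y]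
    have : ∑ y ∈ O.filter (fun y => ¬ S < 2 * nb g y), (g y * (2 * nb g y - S) - g y ^ 2) ≤ 0 :=
      sum_nonpos fun y hy => by
        have := not_lt.mp (mem_filter.mp hy).2
        nlinarith [hg y]
    linarith
  refine r1.trans ?_
  rcases Y.eq_empty_or_nonempty with h | h
  · rw [h, sum_empty]; exact sum_nonneg fun x _ => sq_nonneg _
  have far : ∀ y ∈ Y, ∀ z ∈ Y, ¬ (y.1 + y.2 + 2 < z.1 + z.2 ∨ y.1 - y.2 + 2 < z.1 - z.2) := by
    rintro ⟨a, b⟩ hy ⟨c, d⟩ hz hf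
    have o1 := hO _ (mem_filter.mp hy).1
    have o2 := hO _ (mem_filter.mp hz).1
    have n1 := (mem_filter.mp hy).2
    have n2 := (mem_filter.mp hz).2
    simp only at o1 o2 hf
    have := sub id rfl (fun t h => h) {(a + 1, b), (a - 1, b), (a, b + 1), (a, b - 1),
      (c + 1, d), (c - 1, d), (c, d + 1), (c, d - 1)} (by
        simp only [mem_insert, mem_singleton]
        rintro x (rfl | rfl | rfl | rfl | rfl | rfl | rfl | rfl) <;> simp only <;> omega)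
    repeat rw [sum_insert (by simp only [mem_insert, mem_singleton, Prod.mk.injEq]; omega)] at this
    simp only [id, sum_singleton, nb] at this n1 n2
    linarith
  obtain ⟨y1, m1, u1⟩ := Y.exists_min_image (fun y => y.1 + y.2) h
  obtain ⟨y2, m2, u2⟩ := Y.exists_min_image (fun y => y.1 - y.2) h
  have o1 := hO _ (mem_filter.mp m1).1
  have o2 := hO _ (mem_filter.mp m2).1
  obtain ⟨a, b, hab1, hab2⟩ : ∃ a b : ℤ, a + b = y1.1 + y1.2 + 1 ∧ a - b = y2.1 - y2.2 + 1 :=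
    ⟨(y1.1 + y1.2 + y2.1 - y2.2 + 2) / 2, (y1.1 + y1.2 - y2.1 + y2.2) / 2, by omega, by omega⟩
  have hsub : Y ⊆ {(a + 1, b), (a, b + 1), (a - 1, b), (a, b - 1)} := by
    rintro ⟨c, d⟩ hy
    have := hO _ (mem_filter.mp hy).1
    have := u1 _ hy
    have := u2 _ hy
    have := far _ m1 _ hy
    have := far _ m2 _ hy
    simp only [mem_insert, mem_singleton, Prod.mk.injEq] at *
    omega
  set β : ℤ × ℤ → ℝ := fun y => if y ∈ Y then g y else 0 with hβ
  have hβ0 : ∀ y, 0 ≤ β y := fun y => by simp only [hβ]; split_ifs; exacts [hg y, le_rfl]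
  have r2 : ∑ y ∈ Y, (g y * (2 * nb g y - S) - g y ^ 2) =
      ∑ y ∈ {(a + 1, b), (a, b + 1), (a - 1, b), (a, b - 1)},
        (β y * (2 * nb g y - S) - β y ^ 2) := by
    rw [← sum_subset hsub fun y _ hy => by simp [hβ, hy]]
    exact sum_congr rfl fun y hy => by simp [hβ, hy]
  have s1 := sub id rfl (fun t h => h) {(a, b), (a + 1 + 1, b), (a, b + 1 + 1), (a - 1 - 1, b),
    (a, b - 1 - 1), (a + 1, b + 1), (a - 1, b + 1), (a - 1, b - 1), (a + 1, b - 1)} (by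
      simp only [mem_insert, mem_singleton]
      rintro x (rfl | rfl | rfl | rfl | rfl | rfl | rfl | rfl | rfl) <;> simp only <;> omega)
  have s2 := sub (· ^ 2) (by norm_num) (fun t _ => sq_nonneg t) {(a, b), (a + 1 + 1, b),
    (a, b + 1 + 1), (a - 1 - 1, b),
    (a, b - 1 - 1), (a + 1, b + 1), (a - 1, b + 1), (a - 1, b - 1), (a + 1, b - 1)} (by
      simp only [mem_insert, mem_singleton]
      rintro x (rfl | rfl | rfl | rfl | rfl | rfl | rfl | rfl | rfl) <;> simp only <;> omega)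
  rw [r2]
  repeat rw [sum_insert (by simp only [mem_insert, mem_singleton, Prod.mk.injEq]; omega)] at s1
  repeat rw [sum_insert (by simp only [mem_insert, mem_singleton, Prod.mk.injEq]; omega)] at s2
  repeat rw [sum_insert (by simp only [mem_insert, mem_singleton, Prod.mk.injEq]; omega)]
  simp only [id, sum_singleton, nb, add_sub_cancel_right, sub_add_cancel] at s1 s2 ⊢
  have := nine _ _ _ _ (g (a, b)) (g (a + 1 + 1, b)) (g (a, b + 1 + 1)) (g (a - 1 - 1, b))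
    (g (a, b - 1 - 1)) (g (a + 1, b + 1)) (g (a - 1, b + 1)) (g (a - 1, b - 1)) (g (a + 1, b - 1))
    S (hβ0 (a + 1, b)) (hβ0 (a, b + 1)) (hβ0 (a - 1, b)) (hβ0 (a, b - 1)) (hg _) (hg _) (hg _)
    (hg _) (hg _) (hg _) (hg _) (hg _) (hg _) (by linarith)
  linarith

lemma F_eq (x y : ℤ × ℤ) : F 1 4 x y = (if adj x y then 1 else 0) - if x = y then 1 else 0 := by
  unfold F
  by_cases h : x = y
  · subst h; simp [adj]
  · simp only [h, if_false]; split_ifs <;> norm_num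

lemma fin_bound (f : ℤ × ℤ → ℝ) (hf : ∀ x, 0 ≤ f x) (s : Finset (ℤ × ℤ)) :
    ∑ x ∈ s, ∑ y ∈ s, f x * F 1 4 x y * f y ≤ (∑ x ∈ s, f x) ^ 2 / 4 := by
  classical
  set g : ℤ × ℤ → ℝ := fun x => if x ∈ s then f x else 0 with hg
  have hg0 : ∀ x, 0 ≤ g x := fun x => by simp only [hg]; split_ifs; exacts [hf x, le_rfl]
  set E := s.filter fun x => (x.1 + x.2) % 2 = 0 with hE
  set O := s.filter fun x => ¬ (x.1 + x.2) % 2 = 0 with hO
  have c := core g hg0 E O (fun x h1 h2 => by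
    simp only [hg]; rw [if_neg fun h => h2 (mem_filter.mpr ⟨h, h1⟩)])
    (fun y hy => by have := (mem_filter.mp hy).2; omega)
  have split : ∀ φ : ℤ × ℤ → ℝ, ∑ x ∈ s, φ x = ∑ x ∈ E, φ x + ∑ x ∈ O, φ x := fun φ =>
    (sum_filter_add_sum_filter_not s _ φ).symm
  have eg : ∀ x ∈ s, f x = g x := fun x hx => by simp [hg, hx]
  have n1 : ∀ y ∈ O, ∑ x ∈ E, (if adj x y then 1 else 0) * g x = nb g y := by
    rintro ⟨a, b⟩ hy
    have o := (mem_filter.mp hy).2
    simp only at o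
    have : ∑ x ∈ E, (if adj x (a, b) then 1 else 0) * g x =
        ∑ x ∈ {(a + 1, b), (a - 1, b), (a, b + 1), (a, b - 1)}, g x := by
      simp only [ite_mul, one_mul, zero_mul]
      rw [← sum_filter]
      refine sum_subset (fun x hx => by
        simpa using (adj_iff _ _).mp (mem_filter.mp hx).2) fun x hx hn => ?_
      have a1 : adj x (a, b) := (adj_iff _ _).mpr (by simpa using hx)
      have a2 : (x.1 + x.2) % 2 = 0 := by
        rcases (adj_iff _ _).mp a1 with rfl | rfl | rfl | rfl <;> simp only <;> omega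
      simp only [hg]
      rw [if_neg fun h => hn (mem_filter.mpr ⟨mem_filter.mpr ⟨h, a2⟩, a1⟩)]
    rw [this]
    repeat rw [sum_insert (by simp only [mem_insert, mem_singleton, Prod.mk.injEq]; omega)]
    simp only [sum_singleton, nb]; ring
  have z : ∀ (U : Finset (ℤ × ℤ)), (∀ x ∈ U, ∀ y ∈ U, (x.1 + x.2) % 2 = (y.1 + y.2) % 2) →
      ∑ x ∈ U, ∑ y ∈ U, g x * (if adj x y then 1 else 0) * g y = 0 := fun U hU =>
    sum_eq_zero fun x hx => sum_eq_zero fun y hy => by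
      have := hU x hx y hy
      rw [if_neg fun h => by
        rcases (adj_iff _ _).mp h with rfl | rfl | rfl | rfl <;> simp only at this <;> omega]
      ring
  have sy : ∀ x y, adj x y ↔ adj y x := fun x y => by
    unfold adj; constructor <;> intro h <;> linarith
  have t1 : ∑ x ∈ s, ∑ y ∈ s, f x * F 1 4 x y * f y =
      ∑ x ∈ s, ∑ y ∈ s, g x * (if adj x y then 1 else 0) * g y - ∑ x ∈ s, g x ^ 2 := by
    rw [← sum_sub_distrib]
    refine sum_congr rfl fun x hx => ?_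
    have : g x ^ 2 = ∑ y ∈ s, g x * (if x = y then 1 else 0) * g y := by simp [hx, sq]
    rw [this, ← sum_sub_distrib]
    exact sum_congr rfl fun y hy => by rw [eg x hx, eg y hy, F_eq]; ring
  have t2 : ∑ x ∈ E, ∑ y ∈ O, g x * (if adj x y then 1 else 0) * g y =
      ∑ y ∈ O, g y * nb g y := by
    rw [sum_comm]
    exact sum_congr rfl fun y hy => by
      rw [← n1 y hy, mul_sum]; exact sum_congr rfl fun x _ => by ring
  have t3 : ∑ y ∈ O, ∑ x ∈ E, g y * (if adj y x then 1 else 0) * g x =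
      ∑ y ∈ O, g y * nb g y :=
    sum_congr rfl fun y hy => by
      rw [← n1 y hy, mul_sum]; exact sum_congr rfl fun x _ => by simp only [sy y x]; ring
  have t4 : ∑ y ∈ O, (g y * (2 * nb g y - ∑ x ∈ E, g x) - g y ^ 2) =
      2 * ∑ y ∈ O, g y * nb g y - (∑ y ∈ O, g y) * (∑ x ∈ E, g x) - ∑ y ∈ O, g y ^ 2 := by
    rw [mul_sum, sum_mul, ← sum_sub_distrib, ← sum_sub_distrib]
    exact sum_congr rfl fun y _ => by ring
  rw [t1, sum_congr rfl eg]
  simp only [split, sum_add_distrib]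
  rw [t2, t3, z E fun x hx y hy => by rw [(mem_filter.mp hx).2, (mem_filter.mp hy).2],
    z O fun x hx y hy => by
      have := (mem_filter.mp hx).2
      have := (mem_filter.mp hy).2
      omega]
  nlinarith [sq_nonneg (∑ x ∈ E, g x - ∑ y ∈ O, g y)]

lemma bound (f : ℤ × ℤ → ℝ) (hf : ∀ x, 0 ≤ f x) (h1 : HasSum f 1) : energy 1 4 f ≤ 1 / 4 := by
  have hs : Summable fun p : (ℤ × ℤ) × (ℤ × ℤ) => f p.1 * F 1 4 p.1 p.2 * f p.2 := by
    refine Summable.of_norm_bounded (h1.summable.mul_of_nonneg h1.summable hf hf) fun p => ?_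
    have : |F 1 4 p.1 p.2| ≤ 1 := by unfold F; split_ifs <;> norm_num
    rw [Real.norm_eq_abs, abs_mul, abs_mul, abs_of_nonneg (hf _), abs_of_nonneg (hf _)]
    have := hf p.1
    have := hf p.2
    calc _ ≤ f p.1 * 1 * f p.2 := by gcongr
      _ = _ := by ring
  have ht : Tendsto (fun s : Finset (ℤ × ℤ) => s ×ˢ s) atTop atTop :=
    tendsto_atTop_finset_of_monotone (fun a b h => product_subset_product h h)
      fun p => ⟨{p.1, p.2}, by simp⟩
  refine le_of_tendsto' (hs.hasSum.comp ht) fun s => ?_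
  simp only [Function.comp, sum_product]
  refine (fin_bound f hf s).trans ?_
  have a1 := sum_le_hasSum s (fun x _ => hf x) h1
  have a2 : 0 ≤ ∑ x ∈ s, f x := sum_nonneg fun x _ => hf x
  nlinarith

lemma adm_of_per (L : ℕ) (hL : 0 < L) (v : ℕ → ℤ × ℤ)
    (hv : ∀ i < L, adj (v ((i + 1) % L)) (v i)) :
    Adm fun x => (((range L).filter fun i => v i = x).card : ℝ) / L := by
  have hL' : (0 : ℝ) < L := by exact_mod_cast hL
  refine ⟨fun x => by positivity, ?_, fun k => (k + 1) * L, fun _ i => v (i % L), ?_,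
    fun k i _ => ?_, fun x => ?_⟩
  · have := hasSum_sum_of_ne_finset_zero (L := SummationFilter.unconditional _)
      (f := fun x => (((range L).filter fun i => v i = x).card : ℝ) / L) (s := (range L).image v)
      fun x hx => by
        rw [filter_eq_empty_iff.mpr fun i hi h => hx (mem_image.mpr ⟨i, hi, h⟩)]; simp
    rwa [← sum_div, ← Nat.cast_sum, ← card_eq_sum_card_image, card_range, div_self hL'.ne'] at this
  · exact tendsto_atTop_mono (fun k => by simp only [id]; nlinarith) tendsto_id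
  · have := hv (i % L) (Nat.mod_lt _ hL)
    rwa [Nat.mod_add_mod] at this
  · refine tendsto_const_nhds.congr fun k => ?_
    have c : ∀ m : ℕ, ∑ i ∈ range (m * L), (if v (i % L) = x then (1 : ℝ) else 0) =
        m * ((range L).filter fun i => v i = x).card := by
      intro m
      induction m with
      | zero => simp
      | succ m ih =>
        rw [add_mul, one_mul, sum_range_add, ih, card_filter]
        push_cast
        rw [add_mul, one_mul]
        congr 1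
        exact sum_congr rfl fun i hi => by
          rw [Nat.mul_add_mod', Nat.mod_eq_of_lt (mem_range.mp hi)]
    unfold loc
    rw [card_filter _ (range ((k + 1) * L + 1))]
    push_cast
    rw [sum_range_succ, c]
    simp only [Nat.mul_mod_left, Nat.zero_mod]
    push_cast
    split_ifs <;> field_simp <;> ring

lemma energy_fin (f : ℤ × ℤ → ℝ) (s : Finset (ℤ × ℤ)) (h : ∀ x ∉ s, f x = 0) :
    energy 1 4 f = ∑ x ∈ s, ∑ y ∈ s, f x * F 1 4 x y * f y := by
  unfold energy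
  rw [tsum_eq_sum (s := s ×ˢ s), sum_product]
  intro p hp
  rcases not_and_or.mp (mem_product.not.mp hp) with h1 | h1 <;> simp [h _ h1]

def v1 (i : ℕ) : ℤ × ℤ := [(0, 0), (1, 0), (1, 1), (0, 1)].getD i (0, 0)

def v2 (i : ℕ) : ℤ × ℤ :=
  [(0, 0), (1, 0), (2, 0), (2, 1), (1, 1), (1, 0), (1, 1), (0, 1)].getD i (0, 0)

theorem result : ∃ f f' : ℤ × ℤ → ℝ, IsMax 1 4 f ∧ IsMax 1 4 f' ∧
    ∀ φ : ℤ × ℤ → ℤ × ℤ, f' ≠ f ∘ φ := by
  have z : ∀ (L : ℕ) (v : ℕ → ℤ × ℤ) (s : Finset (ℤ × ℤ)), (∀ i < L, v i ∈ s) → ∀ x ∉ s,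
      (((range L).filter fun i => v i = x).card : ℝ) / L = 0 := fun L v s h x hx => by
    rw [filter_eq_empty_iff.mpr fun i hi (e : v i = x) => hx (e ▸ h i (mem_range.mp hi))]; simp
  have a1 : ∀ x ∈ ({(0, 0), (1, 0), (1, 1), (0, 1)} : Finset (ℤ × ℤ)),
      ((range 4).filter fun i => v1 i = x).card = 1 := by decide
  have a2 : ∀ x ∈ ({(0, 0), (2, 0), (2, 1), (0, 1)} : Finset (ℤ × ℤ)),
      ((range 8).filter fun i => v2 i = x).card = 1 := by decide
  have a3 : ∀ x ∈ ({(1, 0), (1, 1)} : Finset (ℤ × ℤ)),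
      ((range 8).filter fun i => v2 i = x).card = 2 := by decide
  refine ⟨_, _, ⟨adm_of_per 4 (by norm_num) v1 (by decide), fun g hg => ?_⟩,
    ⟨adm_of_per 8 (by norm_num) v2 (by decide), fun g hg => ?_⟩, fun φ h => ?_⟩
  · refine (bound g hg.1 hg.2.1).trans (le_of_eq ?_)
    rw [energy_fin _ {(0, 0), (1, 0), (1, 1), (0, 1)} (z 4 v1 _ (by decide))]
    simp only [mem_insert, mem_singleton, forall_eq_or_imp, forall_eq] at a1
    simp [a1, F, adj]
    norm_num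
  · refine (bound g hg.1 hg.2.1).trans (le_of_eq ?_)
    rw [energy_fin _ {(0, 0), (1, 0), (2, 0), (2, 1), (1, 1), (0, 1)} (z 8 v2 _ (by decide))]
    simp only [mem_insert, mem_singleton, forall_eq_or_imp, forall_eq] at a2 a3
    simp [a2, a3, F, adj]
    norm_num
  · have := congrFun h (0, 0)
    simp only [Function.comp] at this
    rw [a2 _ (by simp)] at this
    by_cases hx : φ (0, 0) ∈ ({(0, 0), (1, 0), (1, 1), (0, 1)} : Finset (ℤ × ℤ))
    · rw [a1 _ hx] at this; norm_num at this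
    · rw [z 4 v1 _ (by decide) _ hx] at this; norm_num at this

end Pool.Agent.Results.MP_840660_pr.Disproof
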